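import Pool.Agent.helper15.P2.SpecN
import Pool.Agent.helper82.P2.IS2

/-!
# Project P2, row IX2: the mass of `V` where `rh` is small (radii `4/5`, `791/1000`)

Copy of the row `IS2` (helper82) with other radii; its lemmas without radii are used.
-/

set_option autoImplicit false

open scoped ContDiff Topology ComplexConjugate
open MeasureTheory Filter Set Metric

namespace Pool.Agent.P2I

open Pool.Agent.P2

/-- the bump function -/
noncomputable def IX2_bump : ContDiffBump (0 : ℂ) :=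
  ⟨791 / 1000, 795 / 1000, by norm_num, by norm_num⟩

theorem IX2_tsup : tsupport (IX2_bump : ℂ → ℝ) ⊆ ball 0 (4 / 5) := by
  rw [ContDiffBump.tsupport_eq]
  exact closedBall_subset_ball (by norm_num [IX2_bump])

/-- `W ≠ 0` almost everywhere -/
theorem IX2_ae (P Q : ℂ → ℂ) (hAdm : Adm P Q) (h4 : 4 ≤ ∫ z in ball (0 : ℂ) (4 / 5), sph P Q z) :
    (∃ z ∈ ball (0 : ℂ) 1, Wr P Q z ≠ 0) ∧
    ∀ᵐ z ∂(volume.restrict (ball (0 : ℂ) 1)), Wr P Q z ≠ 0 := by
  have hne : ∃ z ∈ ball (0 : ℂ) 1, Wr P Q z ≠ 0 := by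
    by_contra hcon
    push Not at hcon
    have : ∫ z in ball (0 : ℂ) (4 / 5), sph P Q z = 0 := by
      rw [← integral_zero ℂ ℝ (μ := volume.restrict (ball (0 : ℂ) (4 / 5)))]
      apply setIntegral_congr_fun measurableSet_ball
      intro z hz
      have hz1 : z ∈ ball (0 : ℂ) 1 := ball_subset_ball (by norm_num) hz
      simp only [sph, hcon z hz1, map_zero, zero_div]
    linarith
  refine ⟨hne, ?_⟩
  obtain ⟨z₀, hz₀, hWz₀⟩ := hne
  have hco : Wr P Q ⁻¹' {0}ᶜ ∈ codiscreteWithin (ball (0 : ℂ) 1) :=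
    (IS1_W_an P Q hAdm).preimage_zero_mem_codiscreteWithin hWz₀ hz₀
      ⟨⟨0, mem_ball_self one_pos⟩, (convex_ball (0 : ℂ) 1).isPreconnected⟩
  have := ae_restrict_le_codiscreteWithin (μ := volume) (measurableSet_ball (x := (0 : ℂ)) (ε := 1)) hco
  filter_upwards [this] with z hz
  exact hz

/-- `rh > 0` almost everywhere on `ball 0 (3/4)` -/
theorem IX2_rh_pos (P Q : ℂ → ℂ) (K : ℝ) (hAdm : Adm P Q)
    (h4 : 4 ≤ ∫ z in ball (0 : ℂ) (4 / 5), sph P Q z)
    (hK : ∀ s : ℝ, 0 < s → s < 1 →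
      (∫ z in ball (0 : ℂ) (791 / 1000) ∩ {z | rh P Q z ≤ s}, sph P Q z) ≤ K * s ^ 2) :
    ∀ᵐ z : ℂ, z ∈ ball (0 : ℂ) (791 / 1000) → 0 < rh P Q z := by
  have hsub : ball (0 : ℂ) (791 / 1000) ⊆ ball 0 1 := ball_subset_ball (by norm_num)
  obtain ⟨A, hA⟩ : ∃ A : Set ℂ, A = ball (0 : ℂ) (791 / 1000) ∩ {z | rh P Q z ≤ 0} := ⟨_, rfl⟩
  have hAsub : A ⊆ ball (0 : ℂ) (791 / 1000) := by rw [hA]; exact inter_subset_left
  have hcl : IntegrableOn (sph P Q) (closedBall (0 : ℂ) (791 / 1000)) := by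
    apply ContinuousOn.integrableOn_compact (isCompact_closedBall _ _)
    intro z hz
    exact (IS1_sph_cont P Q hAdm z (closedBall_subset_ball (by norm_num) hz)).continuousWithinAt
  have hint : IntegrableOn (sph P Q) (ball (0 : ℂ) (791 / 1000)) := hcl.mono_set ball_subset_closedBall
  have hintA : IntegrableOn (sph P Q) A := hint.mono_set hAsub
  have hnn : 0 ≤ᵐ[volume.restrict A] sph P Q := by
    filter_upwards with z
    exact IS1_sph_nonneg P Q z
  have h0 : ∫ z in A, sph P Q z = 0 := by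
    apply le_antisymm _ (integral_nonneg_of_ae hnn)
    have hle : ∀ s : ℝ, 0 < s → s < 1 → ∫ z in A, sph P Q z ≤ K * s ^ 2 := by
      intro s hs hs1
      refine le_trans ?_ (hK s hs hs1)
      apply setIntegral_mono_set (hint.mono_set inter_subset_left)
      · filter_upwards with z
        exact IS1_sph_nonneg P Q z
      · apply Filter.Eventually.of_forall
        intro z hz
        have hz' : z ∈ ball (0 : ℂ) (791 / 1000) ∩ {z | rh P Q z ≤ 0} := by rw [← hA]; exact hz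
        refine ⟨hz'.1, ?_⟩
        have : rh P Q z ≤ 0 := hz'.2
        show rh P Q z ≤ s
        linarith
    have hlim : Tendsto (fun s : ℝ => K * s ^ 2) (𝓝[>] 0) (𝓝 0) := by
      have : Tendsto (fun s : ℝ => K * s ^ 2) (𝓝 0) (𝓝 (K * 0 ^ 2)) := by
        apply Continuous.tendsto
        fun_prop
      rw [show K * (0 : ℝ) ^ 2 = 0 by ring] at this
      exact this.mono_left nhdsWithin_le_nhds
    apply ge_of_tendsto hlim
    have h1 : ∀ᶠ s : ℝ in 𝓝[>] 0, s < 1 := by
      apply nhdsWithin_le_nhds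
      exact Iio_mem_nhds one_pos
    filter_upwards [h1, self_mem_nhdsWithin] with s hs1 hs
    exact hle s hs hs1
  have h1 := (setIntegral_eq_zero_iff_of_nonneg_ae hnn hintA).1 h0
  have h2 : ∀ᵐ z ∂(volume.restrict A), Wr P Q z ≠ 0 ∧ z ∈ ball (0 : ℂ) 1 := by
    have h3 : ∀ᵐ z ∂(volume.restrict (ball (0 : ℂ) 1)), Wr P Q z ≠ 0 ∧ z ∈ ball (0 : ℂ) 1 :=
      (IX2_ae P Q hAdm h4).2.and (ae_restrict_mem measurableSet_ball)
    exact ae_restrict_of_ae_restrict_of_subset (hAsub.trans hsub) h3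
  have h3 : ∀ᵐ _z : ℂ ∂(volume.restrict A), False := by
    filter_upwards [h1, h2] with z hz hz2
    have := IS2_sph_pos P Q hAdm z hz2.2 hz2.1
    rw [hz] at this
    exact lt_irrefl _ this
  have h5 : volume.restrict A = 0 := by
    rw [Filter.eventually_false_iff_eq_bot, ae_eq_bot] at h3
    exact h3
  have h6 : volume A = 0 := Measure.restrict_eq_zero.1 h5
  have h7 : ∀ᵐ z : ℂ, z ∉ A := measure_eq_zero_iff_ae_notMem.1 h6
  filter_upwards [h7] with z hz hzb
  by_contra hcon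
  push Not at hcon
  exact hz (by rw [hA]; exact ⟨hzb, hcon⟩)

/-- the key inequality for the function `H` -/
theorem IX2_main (hIG : IG_stmt) (P Q : ℂ → ℂ) (V : ℂ → ℝ) (E B r M CS CC : ℝ) (χ : ℂ → ℝ)
    (hAdm : Adm P Q) (hE : 1 ≤ E) (hU : ∀ z ∈ ball (0 : ℂ) 1, |Up P Q z| ≤ E)
    (hV : ContDiffOn ℝ ∞ V (ball 0 1)) (hVl : ∀ z ∈ ball (0 : ℂ) 1, 0 ≤ lap V z)
    (hB : 0 ≤ B) (hr : 0 < r) (hr1 : r ≤ 1 / 4)
    (hχ : ContDiff ℝ ∞ χ) (hc : HasCompactSupport χ) (hs : tsupport χ ⊆ ball 0 (4 / 5)) (hχ0 : ∀ z, 0 ≤ χ z)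
    (hχ1 : ∀ z ∈ ball (0 : ℂ) (791 / 1000), χ z = 1)
    (hM : 0 < M) (hMb : ∀ z, |lap χ z| ≤ M)
    (hW : ∃ z ∈ ball (0 : ℂ) 1, Wr P Q z ≠ 0)
    (hpos : ∀ᵐ z : ℂ, z ∈ ball (0 : ℂ) (791 / 1000) → 0 < rh P Q z)
    (hG : ∀ s : ℝ, 0 < s → s < 1 → IntegrableOn (Gr P Q s) (ball 0 (4 / 5)) ∧
      ∫ z in ball (0 : ℂ) (4 / 5), |Gr P Q s z| ≤ CS * E)
    (hUs : ContDiffOn ℝ ∞ (Up P Q) (ball 0 1)) (hUl : ∀ z ∈ ball (0 : ℂ) 1, lap (Up P Q) z = sph P Q z / 2)
    (hUi : ∫ z, χ z * lap (Up P Q) z ≤ M * (E * 4))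
    (hcut : |∫ z, χ z * (4 / Real.log (1 / r) * (Gr P Q (√r) z - Gr P Q r z)) * lap (fun x => V x - Up P Q x) z| ≤
      CC * B * (1 + 4 / Real.log (1 / r) * (CS * E))) :
    (∫ z in ball (0 : ℂ) (791 / 1000) ∩ {z | rh P Q z ≤ r}, lap V z) ≤
      2 * (8 * √r * (M * (CS * E)) + 1 / Real.log (1 / r) * √r * (M * (E * 4)) +
        CC * B * (1 + 4 / Real.log (1 / r) * (CS * E))) := by
  have hsub : ball (0 : ℂ) (4 / 5) ⊆ ball 0 1 := ball_subset_ball (by norm_num)
  have hsub' : ball (0 : ℂ) (791 / 1000) ⊆ ball 0 (4 / 5) := ball_subset_ball (by norm_num)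
  obtain ⟨L, hL⟩ : ∃ L : ℝ, L = Real.log (1 / r) := ⟨_, rfl⟩
  have hL0 : 0 < L := by
    rw [hL]; apply Real.log_pos; rw [lt_div_iff₀ hr]; linarith
  rw [← hL] at hcut ⊢
  have hs0 : 0 < √r := Real.sqrt_pos.2 hr
  have hs2 : √r ^ 2 = r := Real.sq_sqrt hr.le
  have hs1 : √r < 1 := by
    rw [Real.sqrt_lt' one_pos]; linarith
  obtain ⟨H, hH⟩ : ∃ H : ℂ → ℝ, H = fun z => 4 / L * (Gr P Q (√r) z - Gr P Q r z) := ⟨_, rfl⟩
  have hHg : ∀ z, H z = 1 / L * (Real.log (1 + r / rh P Q z ^ 2) - Real.log (1 + r ^ 2 / rh P Q z ^ 2)) := by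
    intro z; rw [hH]; exact IS2_H P Q r L z hr
  have hH0 : ∀ z, 0 ≤ H z := by
    intro z; rw [hHg z]
    exact mul_nonneg (by positivity) (IS2_g0 r _ hr (by linarith))
  have hH1 : ∀ z, H z ≤ 1 := by
    intro z; rw [hHg z]
    have := IS2_g1 r (rh P Q z) hr (by linarith)
    rw [← hL] at this
    calc 1 / L * (Real.log (1 + r / rh P Q z ^ 2) - Real.log (1 + r ^ 2 / rh P Q z ^ 2))
        ≤ 1 / L * L := mul_le_mul_of_nonneg_left this (by positivity)
      _ = 1 := by field_simp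
  have hHlow : ∀ z, 0 < rh P Q z → rh P Q z ≤ r → 1 / 2 ≤ H z := by
    intro z h1 h2; rw [hHg z]
    have := IS2_g2 r (rh P Q z) hr hr1 h1 h2
    rw [← hL] at this
    calc (1 / 2 : ℝ) = 1 / L * (L / 2) := by field_simp
      _ ≤ _ := mul_le_mul_of_nonneg_left this (by positivity)
  have hHup : ∀ z, √(√r) < rh P Q z → H z ≤ 1 / L * √r := by
    intro z h1; rw [hHg z]
    apply mul_le_mul_of_nonneg_left _ (by positivity)
    apply IS2_g3 r (rh P Q z) (√r) hr hs0 hs2
    calc √r = √(√r) ^ 2 := (Real.sq_sqrt hs0.le).symm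
      _ ≤ rh P Q z ^ 2 := by
        apply pow_le_pow_left₀ (Real.sqrt_nonneg _) h1.le
  have hHi : IntegrableOn H (ball 0 (4 / 5)) := by
    rw [hH]
    exact ((hG (√r) hs0 hs1).1.sub (hG r hr (by linarith)).1).const_mul _
  have hVc : ∀ z ∈ ball (0 : ℂ) 1, ContinuousAt (lap V) z := fun z hz =>
    IS2_lap_contAt V z (hV.contDiffAt (isOpen_ball.mem_nhds hz))
  have hUc : ∀ z ∈ ball (0 : ℂ) 1, ContinuousAt (lap (Up P Q)) z := fun z hz =>
    IS2_lap_contAt _ z (hUs.contDiffAt (isOpen_ball.mem_nhds hz))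
  have hDs : ContDiffOn ℝ ∞ (fun x => V x - Up P Q x) (ball 0 1) := hV.sub hUs
  have hDc : ∀ z ∈ ball (0 : ℂ) 1, ContinuousAt (lap (fun x => V x - Up P Q x)) z := fun z hz =>
    IS2_lap_contAt _ z (hDs.contDiffAt (isOpen_ball.mem_nhds hz))
  have hIV := IS2_int χ (lap V) H hχ.continuous hc hs hVc hHi
  have hIU := IS2_int χ (lap (Up P Q)) H hχ.continuous hc hs hUc hHi
  have hID := IS2_int χ _ H hχ.continuous hc hs hDc hHi
  have hχout : ∀ z, z ∉ ball (0 : ℂ) (4 / 5) → χ z = 0 := fun z hz =>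
    image_eq_zero_of_notMem_tsupport (fun h => hz (hs h))
  -- a measurable version of `H`
  obtain ⟨H', hH'm, hHH'⟩ : ∃ H' : ℂ → ℝ, Measurable H' ∧ ∀ᵐ z : ℂ, z ∈ ball (0 : ℂ) (4 / 5) → H z = H' z := by
    have h1 := hHi.aestronglyMeasurable
    refine ⟨h1.mk H, h1.stronglyMeasurable_mk.measurable, ?_⟩
    exact (ae_restrict_iff' measurableSet_ball).1 h1.ae_eq_mk
  -- step 1
  have step1 : (∫ z in ball (0 : ℂ) (791 / 1000) ∩ {z | rh P Q z ≤ r}, lap V z) ≤ 2 * ∫ z, χ z * H z * lap V z := by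
    obtain ⟨A', hA'⟩ : ∃ A' : Set ℂ, A' = ball (0 : ℂ) (791 / 1000) ∩ {z | 1 / 2 ≤ H' z} := ⟨_, rfl⟩
    have hA'm : MeasurableSet A' := by
      rw [hA']
      exact measurableSet_ball.inter (measurableSet_le measurable_const hH'm)
    have hA's : A' ⊆ ball (0 : ℂ) (791 / 1000) := by rw [hA']; exact inter_subset_left
    have hVi : IntegrableOn (lap V) (ball (0 : ℂ) (791 / 1000)) := by
      have : IntegrableOn (lap V) (closedBall (0 : ℂ) (791 / 1000)) := by
        apply ContinuousOn.integrableOn_compact (isCompact_closedBall _ _)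
        intro z hz
        exact (hVc z (closedBall_subset_ball (by norm_num) hz)).continuousWithinAt
      exact this.mono_set ball_subset_closedBall
    have hVA : IntegrableOn (lap V) A' := hVi.mono_set hA's
    have c1 : (∫ z in ball (0 : ℂ) (791 / 1000) ∩ {z | rh P Q z ≤ r}, lap V z) ≤ ∫ z in A', lap V z := by
      apply setIntegral_mono_set hVA
      · have : ∀ᵐ z ∂(volume.restrict A'), z ∈ A' := ae_restrict_mem hA'm
        filter_upwards [this] with z hz
        exact hVl z (hsub (hsub' (hA's hz)))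
      · filter_upwards [hHH', hpos] with z h1 h2 hz
        rw [hA']
        refine ⟨hz.1, ?_⟩
        show 1 / 2 ≤ H' z
        rw [← h1 (hsub' hz.1)]
        exact hHlow z (h2 hz.1) hz.2
    have c2 : ∫ z in A', lap V z ≤ ∫ z in A', 2 * (χ z * H z * lap V z) := by
      apply setIntegral_mono_ae_restrict hVA (hIV.const_mul 2).integrableOn
      have h1 : ∀ᵐ z ∂(volume.restrict A'), z ∈ A' := ae_restrict_mem hA'm
      have h2 : ∀ᵐ z ∂(volume.restrict A'), z ∈ ball (0 : ℂ) (4 / 5) → H z = H' z := ae_restrict_of_ae hHH'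
      filter_upwards [h1, h2] with z hz hz2
      have hzb := hA's hz
      have hz3 : 1 / 2 ≤ H z := by
        rw [hz2 (hsub' hzb)]
        rw [hA'] at hz
        exact hz.2
      rw [hχ1 z hzb]
      have := hVl z (hsub (hsub' hzb))
      nlinarith
    have c3 : ∫ z in A', 2 * (χ z * H z * lap V z) ≤ ∫ z, 2 * (χ z * H z * lap V z) := by
      apply setIntegral_le_integral (hIV.const_mul 2)
      filter_upwards with z
      by_cases hz : z ∈ ball (0 : ℂ) (4 / 5)
      · have := hVl z (hsub hz)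
        have := hχ0 z
        have := hH0 z
        show 0 ≤ 2 * (χ z * H z * lap V z)
        positivity
      · show 0 ≤ 2 * (χ z * H z * lap V z)
        rw [hχout z hz]; simp
    calc _ ≤ _ := c1
      _ ≤ _ := c2
      _ ≤ _ := c3
      _ = _ := integral_const_mul _ _
  -- step 2
  have step2 : ∫ z, χ z * H z * lap V z = (∫ z, χ z * H z * lap (Up P Q) z) +
      ∫ z, χ z * H z * lap (fun x => V x - Up P Q x) z := by
    rw [← integral_add hIU hID]
    congr 1
    funext z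
    by_cases hz : z ∈ ball (0 : ℂ) (4 / 5)
    · have hz1 := hsub hz
      rw [IS2_lap_sub V (Up P Q) z (hV.contDiffAt (isOpen_ball.mem_nhds hz1))
        (hUs.contDiffAt (isOpen_ball.mem_nhds hz1))]
      ring
    · rw [hχout z hz]; ring
  -- step 3
  have hIs : Integrable (fun z => χ z * sph P Q z) := IS1_int P Q hAdm χ hχ.continuous hc (hs.trans hsub)
  have hUs2 : ∫ z, χ z * sph P Q z = 2 * ∫ z, χ z * lap (Up P Q) z := by
    rw [← integral_const_mul]
    congr 1
    funext z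
    by_cases hz : z ∈ ball (0 : ℂ) (4 / 5)
    · rw [hUl z (hsub hz)]; ring
    · rw [hχout z hz]; ring
  have step3 : ∫ z, χ z * H z * lap (Up P Q) z ≤
      8 * √r * (M * (CS * E)) + 1 / L * √r * (M * (E * 4)) := by
    obtain ⟨G', hG'⟩ : ∃ G' : Set ℂ, G' = ball (0 : ℂ) (4 / 5) ∩ {z | 1 / L * √r < H' z} := ⟨_, rfl⟩
    have hG'm : MeasurableSet G' := by
      rw [hG']
      exact measurableSet_ball.inter (measurableSet_lt measurable_const hH'm)
    have hss0 : 0 < √(√r) := Real.sqrt_pos.2 hs0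
    have hss1 : √(√r) < 1 := by rw [Real.sqrt_lt' one_pos]; linarith
    have hss2 : √(√r) ^ 2 = √r := Real.sq_sqrt hs0.le
    obtain ⟨g1, g2⟩ := hG (√(√r)) hss0 hss1
    have d1 : ∫ z in G', χ z * sph P Q z ≤
        ∫ z in {z : ℂ | z ∈ ball (0 : ℂ) 1 ∧ rh P Q z ≤ √(√r)}, χ z * sph P Q z := by
      apply setIntegral_mono_set hIs.integrableOn
      · filter_upwards with z
        exact mul_nonneg (hχ0 z) (IS1_sph_nonneg P Q z)
      · filter_upwards [hHH'] with z h1 hz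
        have hz' : z ∈ ball (0 : ℂ) (4 / 5) ∩ {z | 1 / L * √r < H' z} := by rw [← hG']; exact hz
        refine ⟨hsub hz'.1, ?_⟩
        by_contra hcon
        push Not at hcon
        have h2 := hHup z hcon
        have h3 : 1 / L * √r < H' z := hz'.2
        rw [← h1 hz'.1] at h3
        linarith
    have d2 := (hIG P Q E (√(√r)) hAdm hE hU hss0 hss1 hW).2 χ hχ hc (hs.trans hsub) hχ0
    rw [hss2] at d2
    have d3 := IS2_lapint χ (Gr P Q (√(√r))) M (CS * E) hM.le hMb hs g1 g2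
    have d4 : ∫ z in G', χ z * sph P Q z ≤ 16 * √r * (M * (CS * E)) :=
      d1.trans (d2.trans (mul_le_mul_of_nonneg_left d3 (by positivity)))
    have d5 : ∫ z, χ z * H z * lap (Up P Q) z ≤
        ∫ z, (1 / 2 * G'.indicator (fun z => χ z * sph P Q z) z + 1 / 2 * (1 / L * √r * (χ z * sph P Q z))) := by
      apply integral_mono_ae hIU
      · exact ((hIs.indicator hG'm).const_mul _).add ((hIs.const_mul _).const_mul _)
      · filter_upwards [hHH'] with z h1
        have hsp := IS1_sph_nonneg P Q z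
        have hcz := hχ0 z
        have hcs : 0 ≤ χ z * sph P Q z := mul_nonneg hcz hsp
        by_cases hz : z ∈ ball (0 : ℂ) (4 / 5)
        · show χ z * H z * lap (Up P Q) z ≤ _
          rw [hUl z (hsub hz)]
          by_cases hzG : z ∈ G'
          · rw [indicator_of_mem hzG]
            have h2 : H z * (χ z * sph P Q z) ≤ 1 * (χ z * sph P Q z) :=
              mul_le_mul_of_nonneg_right (hH1 z) hcs
            have h3 : 0 ≤ 1 / L * √r * (χ z * sph P Q z) := by positivity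
            nlinarith
          · rw [indicator_of_notMem hzG]
            have h4 : H z ≤ 1 / L * √r := by
              by_contra hcon
              push Not at hcon
              apply hzG
              rw [hG']
              refine ⟨hz, ?_⟩
              show 1 / L * √r < H' z
              rw [← h1 hz]; exact hcon
            have h5 : H z * (χ z * sph P Q z) ≤ 1 / L * √r * (χ z * sph P Q z) :=
              mul_le_mul_of_nonneg_right h4 hcs
            nlinarith
        · have hz0 := hχout z hz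
          have hzG : z ∉ G' := by
            rw [hG']; exact fun h => hz h.1
          show χ z * H z * lap (Up P Q) z ≤ _
          rw [indicator_of_notMem hzG, hz0]
          simp
    have d6 : ∫ z, (1 / 2 * G'.indicator (fun z => χ z * sph P Q z) z + 1 / 2 * (1 / L * √r * (χ z * sph P Q z))) =
        1 / 2 * (∫ z in G', χ z * sph P Q z) + 1 / 2 * (1 / L * √r * ∫ z, χ z * sph P Q z) := by
      rw [integral_add ((hIs.indicator hG'm).const_mul _) ((hIs.const_mul _).const_mul _)]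
      rw [integral_const_mul, integral_indicator hG'm, integral_const_mul, integral_const_mul]
    rw [d6] at d5
    have d7 : 1 / L * √r * ∫ z, χ z * sph P Q z ≤ 1 / L * √r * (2 * (M * (E * 4))) := by
      apply mul_le_mul_of_nonneg_left _ (by positivity)
      rw [hUs2]; linarith
    linarith
  have step4 : ∫ z, χ z * H z * lap (fun x => V x - Up P Q x) z ≤
      CC * B * (1 + 4 / L * (CS * E)) := by
    have := (abs_le.1 hcut).2
    rw [hH]
    exact this
  calc _ ≤ 2 * ∫ z, χ z * H z * lap V z := step1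
    _ ≤ _ := by rw [step2]; linarith

end Pool.Agent.P2I

namespace Pool.Agent.P2N

open Pool.Agent.P2 Pool.Agent.P2I

theorem IX2 (hCH1 : CH1_stmt) (hIB1 : IB1_stmt) (hIG : IG_stmt) (hIX1 : IX1_stmt) (hCUT : CUT_stmt) : IX2_stmt := by
  obtain ⟨CS, hCS, hS⟩ := hIX1
  obtain ⟨M, hM, hMb⟩ := IS1_lap_bdd IX2_bump IX2_bump.contDiff IX2_bump.hasCompactSupport
  obtain ⟨CC, hCC, hC⟩ := hCUT IX2_bump IX2_bump.contDiff IX2_bump.hasCompactSupport IX2_tsup
    (fun z => IX2_bump.nonneg)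
  refine ⟨32 * M * CS + 8 * M + 2 * CC * (1 + 4 * CS), by positivity, ?_⟩
  intro P Q V E B r hAdm hE hU h4 hV hVl hB hVU hr hr1 hlog
  have hsub : ball (0 : ℂ) (4 / 5) ⊆ ball 0 1 := ball_subset_ball (by norm_num)
  have hL0 : 0 < Real.log (1 / r) := by
    apply Real.log_pos; rw [lt_div_iff₀ hr]; linarith
  obtain ⟨hW, hae⟩ := IX2_ae P Q hAdm h4
  obtain ⟨hUs, hUl⟩ := hCH1.2 (ball 0 1) P Q isOpen_ball hAdm.1 hAdm.2.1 hAdm.2.2
  have hG : ∀ s : ℝ, 0 < s → s < 1 → IntegrableOn (P2I.Gr P Q s) (ball 0 (4 / 5)) ∧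
      ∫ z in ball (0 : ℂ) (4 / 5), |P2I.Gr P Q s z| ≤ CS * E := fun s hs hs1 =>
    (hS P Q E s hAdm hE hU h4 hs hs1).2
  have hpos := IX2_rh_pos P Q (CS * E) hAdm h4 (fun s hs hs1 => (hS P Q E s hAdm hE hU h4 hs hs1).1)
  have hs0 : 0 < √r := Real.sqrt_pos.2 hr
  have hs1 : √r < 1 := by rw [Real.sqrt_lt' one_pos]; linarith
  have hUi : ∫ z, IX2_bump z * lap (Up P Q) z ≤ M * (E * 4) := by
    rw [hIB1 (ball 0 1) IX2_bump (Up P Q) isOpen_ball IX2_bump.contDiff IX2_bump.hasCompactSupport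
      (IX2_tsup.trans hsub) hUs]
    have hUint : IntegrableOn (Up P Q) (ball 0 (4 / 5)) := by
      have : IntegrableOn (Up P Q) (closedBall (0 : ℂ) (4 / 5)) := by
        apply ContinuousOn.integrableOn_compact (isCompact_closedBall _ _)
        intro z hz
        exact ((hUs.contDiffAt (isOpen_ball.mem_nhds
          (closedBall_subset_ball (by norm_num) hz))).continuousAt).continuousWithinAt
      exact this.mono_set ball_subset_closedBall
    apply IS2_lapint IX2_bump (Up P Q) M (E * 4) hM.le hMb IX2_tsup hUint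
    have hfin : volume (ball (0 : ℂ) (4 / 5)) < ⊤ := measure_ball_lt_top
    have hvol : volume.real (ball (0 : ℂ) (4 / 5)) ≤ 4 := by
      have e1 : volume.real (ball (0 : ℂ) (4 / 5)) = Real.pi * (4 / 5) ^ 2 := by
        rw [Measure.real, Complex.volume_ball, ENNReal.toReal_mul, ENNReal.toReal_pow,
          ENNReal.toReal_ofReal (by norm_num)]
        simp [mul_comm]
      rw [e1]
      have := Real.pi_lt_four
      nlinarith
    have hb : ‖∫ z in ball (0 : ℂ) (4 / 5), |Up P Q z|‖ ≤ E * volume.real (ball (0 : ℂ) (4 / 5)) := by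
      apply norm_setIntegral_le_of_norm_le_const hfin
      intro z hz
      rw [Real.norm_eq_abs, abs_abs]
      exact hU z (hsub hz)
    calc ∫ z in ball (0 : ℂ) (4 / 5), |Up P Q z| ≤ _ := Real.le_norm_self _
      _ ≤ _ := hb
      _ ≤ E * 4 := mul_le_mul_of_nonneg_left hvol (by linarith)
  have hwk : ∀ s : ℝ, 0 < s → s < 1 → ∀ κ : ℂ → ℝ, ContDiff ℝ ∞ κ → HasCompactSupport κ →
      tsupport κ ⊆ ball 0 (4 / 5) → (∀ z, 0 ≤ κ z) → 0 ≤ ∫ z, lap κ z * P2I.Gr P Q s z := by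
    intro s hs hs1 κ hκ hκc hκs hκ0
    have h := (hIG P Q E s hAdm hE hU hs hs1 hW).2 κ hκ hκc (hκs.trans hsub) hκ0
    have h0 : 0 ≤ ∫ z in {z : ℂ | z ∈ ball (0 : ℂ) 1 ∧ rh P Q z ≤ s}, κ z * sph P Q z := by
      apply integral_nonneg
      intro z
      exact mul_nonneg (hκ0 z) (IS1_sph_nonneg P Q z)
    have h1 : 0 ≤ 16 * s ^ 2 * ∫ z, lap κ z * P2I.Gr P Q s z := h0.trans h
    by_contra hcon
    push Not at hcon
    have : 16 * s ^ 2 * ∫ z, lap κ z * P2I.Gr P Q s z < 0 := mul_neg_of_pos_of_neg (by positivity) hcon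
    linarith
  have hHb : ∀ z, 0 ≤ 4 / Real.log (1 / r) * (P2I.Gr P Q (√r) z - P2I.Gr P Q r z) ∧
      4 / Real.log (1 / r) * (P2I.Gr P Q (√r) z - P2I.Gr P Q r z) ≤ 1 := by
    intro z
    rw [IS2_H P Q r _ z hr]
    constructor
    · exact mul_nonneg (by positivity) (IS2_g0 r _ hr (by linarith))
    · calc _ ≤ 1 / Real.log (1 / r) * Real.log (1 / r) :=
          mul_le_mul_of_nonneg_left (IS2_g1 r _ hr (by linarith)) (by positivity)
        _ = 1 := by field_simp
  have hcut := hC (P2I.Gr P Q (√r)) (P2I.Gr P Q r) (fun x => V x - Up P Q x) (4 / Real.log (1 / r)) (CS * E) B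
    (by positivity) (by positivity) hB (hG _ hs0 hs1).1 (hG r hr (by linarith)).1 (hG _ hs0 hs1).2
    (hG r hr (by linarith)).2
    (fun κ h1 h2 h3 h4 => ⟨hwk _ hs0 hs1 κ h1 h2 h3 h4, hwk r hr (by linarith) κ h1 h2 h3 h4⟩)
    (Filter.Eventually.of_forall (fun z _ => hHb z)) (hV.sub hUs) hVU
  have h := IX2_main hIG P Q V E B r M CS CC IX2_bump hAdm hE hU hV hVl hB hr hr1 IX2_bump.contDiff
    IX2_bump.hasCompactSupport IX2_tsup (fun z => IX2_bump.nonneg)
    (fun z hz => IX2_bump.one_of_mem_closedBall (ball_subset_closedBall hz)) hM hMb hW hpos hG hUs hUl hUi hcut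
  exact h.trans (IS2_last E B r (Real.log (1 / r)) M CS CC hE hB hr rfl hL0 hlog hM hCS hCC)

end Pool.Agent.P2N
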