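import Pool.Agent.helper83.P2.SpecS0

/-! Row SID of project p2 (MP_063734_an): idempotent ultrafilters on the positive integers. -/

set_option autoImplicit false

namespace Pool.Agent.P2

open Metric Filter Topology MeasureTheory
open Pool.Agent.helper37.QA

noncomputable section

attribute [local instance] Ultrafilter.add Ultrafilter.addSemigroup in
theorem SID_exists : ∃ e : Ultrafilter ℕ+, e + e = e :=
  exists_idempotent_of_compact_t2_of_continuous_add_left Ultrafilter.continuous_add_left

attribute [local instance] Ultrafilter.add Ultrafilter.addSemigroup in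
theorem SID : SID_stmt := by
  obtain ⟨e, he⟩ := SID_exists
  refine ⟨e.map (fun n : ℕ+ => (n : ℕ)), ?_, ?_⟩
  · rw [Ultrafilter.mem_map]
    have h : (fun n : ℕ+ => (n : ℕ)) ⁻¹' {n | 0 < n} = Set.univ := by
      ext n
      simp
    rw [h]
    exact Filter.univ_mem
  · intro A hA
    rw [Ultrafilter.mem_map] at hA ⊢
    have h1 : ∀ᶠ m in (↑(e + e) : Filter ℕ+), ((m : ℕ+) : ℕ) ∈ A := by
      rw [he]
      exact hA
    rw [Ultrafilter.eventually_add] at h1
    refine Filter.mem_of_superset h1 ?_
    intro m hm
    change {n | (m : ℕ) + n ∈ A} ∈ e.map (fun n : ℕ+ => (n : ℕ))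
    rw [Ultrafilter.mem_map]
    refine Filter.mem_of_superset hm ?_
    intro n hn
    have hn' : ((m + n : ℕ+) : ℕ) ∈ A := hn
    rw [PNat.add_coe] at hn'
    exact hn'

end

end Pool.Agent.P2
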